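import Pool.Agent.N95.GH.Top

/-!
Points over finitely generated fields of the projective sets with finite multi-valued maps to
generic complete intersections.
-/

set_option autoImplicit false
set_option linter.unusedSectionVars false
set_option linter.overlappingInstances false

open MvPolynomial LinearAlgebra.Projectivization

namespace Pool.Agent.N95.GH

open Pool.Agent.N111.GI (GenericCI)

/-- the degrees of the points of a finite set which is defined over a subfield -/
theorem deg_few {F K : Type} [Field F] [CharZero F] [Field K] [IsAlgClosed K] [Algebra F K]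
    {n r : ℕ} {𝒬 : Set (MvPolynomial (Fin (n + 1)) F)} {b0 : Fin (n + 1)}
    (hfew : ∀ p : Fin (r + 1) → Fin (n + 1) → K, (∀ l, p l b0 = 1) →
      (∀ l, ∀ f ∈ 𝒬, aeval (p l) f = 0) → ¬ Function.Injective p)
    {x : Fin (n + 1) → K} (hx : x b0 = 1) (hxQ : ∀ f ∈ 𝒬, aeval x f = 0) :
    FiniteDimensional F (IntermediateField.adjoin F (Set.range x)) ∧
      Module.finrank F (IntermediateField.adjoin F (Set.range x)) ≤ r := by
  classical
  have hac : IsAlgClosed (algebraicClosure F K) := (algebraicClosure.isAlgClosure F K).isAlgClosed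
  -- the coordinates are algebraic
  have halg : ∀ i, IsAlgebraic F (x i) := by
    intro i
    by_contra hcon
    obtain ⟨R, hR⟩ : ∃ R : Set (algebraicClosure F K), R = {c |
      ∃ p' : Fin (n + 1) → algebraicClosure F K, p' b0 = 1 ∧
        (∀ f ∈ 𝒬, aeval (fun j => (p' j : K)) f = 0) ∧ p' i = c} := ⟨_, rfl⟩
    have hRinf : R.Infinite := by
      intro hfin
      obtain ⟨A, hA, hφ⟩ := exists_sub (algebraicClosure F K) (S := Set.range x)
        (Set.finite_range x)
      have hxA : ∀ j, x j ∈ A := fun j => hA ⟨j, rfl⟩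
      let h : A := ∏ c ∈ hfin.toFinset,
        ((⟨x i, hxA i⟩ : A) - algebraMap (algebraicClosure F K) A c)
      have hh : h ≠ 0 := by
        refine Finset.prod_ne_zero_iff.2 fun c _ => sub_ne_zero.2 fun h0 => hcon ?_
        have h1 : x i = (c : K) := congrArg Subtype.val h0
        rw [h1]
        exact (mem_algebraicClosure_iff (F := F) (E := K)).1 c.2
      obtain ⟨φ, hφh⟩ := hφ h hh
      rw [map_prod] at hφh
      have hφ2 := Finset.prod_ne_zero_iff.1 hφh
      have hmem : φ ⟨x i, hxA i⟩ ∈ R := by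
        rw [hR]
        refine ⟨fun j => φ ⟨x j, hxA j⟩, ?_, fun f hf => ?_, rfl⟩
        · have h2 : (⟨x b0, hxA b0⟩ : A) = 1 := Subtype.ext hx
          change φ ⟨x b0, hxA b0⟩ = 1
          rw [h2, map_one]
        · obtain ⟨g, hg⟩ : ∃ g : MvPolynomial (Fin (n + 1)) (algebraicClosure F K),
            g = MvPolynomial.map (algebraMap F (algebraicClosure F K)) f := ⟨_, rfl⟩
          have h3 : aeval x g = 0 := by
            rw [hg, aeval_map_algebraMap]
            exact hxQ f hf
          have h4 := val_hom φ hxA h3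
          have h5 : aeval (fun j => φ ⟨x j, hxA j⟩) g =
              aeval (fun j => φ ⟨x j, hxA j⟩) f := by
            rw [hg, aeval_map_algebraMap]
          rw [h5] at h4
          have h6 := congrArg (algebraMap (algebraicClosure F K) K) h4
          rw [map_zero, ← MvPolynomial.aeval_algebraMap_apply] at h6
          exact h6
      apply hφ2 _ (hfin.mem_toFinset.2 hmem)
      rw [map_sub, sub_eq_zero]
      exact (φ.commutes _).symm
    have hmemR : ∀ c ∈ R, ∃ p' : Fin (n + 1) → algebraicClosure F K, p' b0 = 1 ∧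
        (∀ f ∈ 𝒬, aeval (fun j => (p' j : K)) f = 0) ∧ p' i = c := fun c hc => by
      rw [hR] at hc
      exact hc
    obtain ⟨c, hcR⟩ := hRinf.natEmbedding
    choose p' h1 h2 h3 using fun l : ℕ => hmemR (c l) (c l).2
    refine hfew (fun l j => (p' l j : K)) (fun l => ?_) (fun l f hf => h2 l f hf) fun l l' hll => ?_
    · rw [h1]
      rfl
    · have h9 : ((p' l i : algebraicClosure F K) : K) = p' l' i := congrFun hll i
      have h10 : p' l i = p' l' i := Subtype.ext h9
      rw [h3, h3] at h10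
      exact Fin.ext (hcR (Subtype.ext h10))
  have hfin : FiniteDimensional F (IntermediateField.adjoin F (Set.range x)) := by
    refine IntermediateField.finiteDimensional_adjoin ?_
    rintro _ ⟨i, rfl⟩
    exact (halg i).isIntegral
  refine ⟨hfin, ?_⟩
  by_contra hcon
  push Not at hcon
  obtain ⟨E, hE⟩ : ∃ E, E = IntermediateField.adjoin F (Set.range x) := ⟨_, rfl⟩
  rw [← hE] at hfin hcon
  have hmem : ∀ i, x i ∈ E := fun i => by
    rw [hE]
    exact IntermediateField.subset_adjoin F _ ⟨i, rfl⟩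
  let u : Fin (n + 1) → E := fun i => ⟨x i, hmem i⟩
  have hcard : Fintype.card (Fin (r + 1)) ≤ Fintype.card (E →ₐ[F] K) := by
    rw [AlgHom.card, Fintype.card_fin]
    exact hcon
  obtain ⟨σ⟩ := Function.Embedding.nonempty_of_card_le hcard
  refine hfew (fun l i => σ l (u i)) (fun l => ?_) (fun l f hf => ?_) fun l l' hll => ?_
  · have : u b0 = 1 := Subtype.ext hx
    rw [this, map_one]
  · have h1 : aeval u f = 0 := by
      apply (algebraMap E K).injective
      rw [map_zero, ← MvPolynomial.aeval_algebraMap_apply]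
      exact hxQ f hf
    have h2 := congrArg (σ l) h1
    rw [map_zero] at h2
    have h3 : (σ l).comp (aeval u) = aeval fun i => σ l (u i) := by
      apply MvPolynomial.algHom_ext
      intro i
      rw [AlgHom.comp_apply, aeval_X, aeval_X]
    rw [← h3]
    exact h2
  · apply σ.injective
    refine IntermediateField.algHom_ext_of_eq_adjoin F hE ?_
    rintro _ ⟨i, rfl⟩
    exact congrFun hll i

section

variable {k K : Type} [Field k] [Field K] [Algebra k K] [IsAlgClosed K] [CharZero K] {M : ℕ}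
  {Φ : Set (MvPolynomial (Fin (M + 1)) K)} {X : GenericCI k K} {r : ℕ}

/-- the fibres are finite -/
theorem FinMap.fib_finite (C : FinMap Φ X r) {x : Fin (X.n + 1) → K} (hx : X.Point x) :
    {q : ℙ K (Fin (M + 1) → K) | OnSet Φ q.rep ∧ Rel C.Γ q.rep x}.Finite := by
  classical
  obtain ⟨N, hN⟩ := C.fin
  by_contra hcon
  have hinf : {q : ℙ K (Fin (M + 1) → K) | OnSet Φ q.rep ∧ Rel C.Γ q.rep x}.Infinite := hcon
  obtain ⟨c, hc⟩ := hinf.natEmbedding
  obtain ⟨i, j, hij, a, ha⟩ := hN x hx (fun l : Fin (N + 1) => (c l : ℙ K (Fin (M + 1) → K)).rep)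
    fun l => (c l).2
  apply hij
  apply Fin.ext
  apply hc
  apply Subtype.ext
  have hi := (c i : ℙ K (Fin (M + 1) → K)).rep_nonzero
  have hj := (c j : ℙ K (Fin (M + 1) → K)).rep_nonzero
  rw [← Projectivization.mk_rep (c i : ℙ K (Fin (M + 1) → K)),
    ← Projectivization.mk_rep (c j : ℙ K (Fin (M + 1) → K)), Projectivization.mk_eq_mk_iff']
  exact ⟨a, ha.symm⟩

/-- polynomials over a subfield, with values of one group of variables in the subfield -/
theorem exists_fib {F : Type} [Field F] [Algebra F K] {a b : ℕ}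
    {f : MvPolynomial (Fin (a + 1) ⊕ Fin (b + 1)) K}
    (hf : (f.coeffs : Set K) ⊆ Set.range (algebraMap F K)) {z : Fin (a + 1) → K}
    (hz : ∀ i, z i ∈ Set.range (algebraMap F K)) :
    ∃ g : MvPolynomial (Fin (b + 1)) F, ∀ x : Fin (b + 1) → K,
      aeval x g = aeval (Sum.elim z x) f := by
  obtain ⟨f0, rfl⟩ : f ∈ Set.range (MvPolynomial.map (algebraMap F K)) :=
    mem_range_map_iff_coeffs_subset.2 hf
  choose z0 hz0 using hz
  refine ⟨aeval (Sum.elim (fun i => C (z0 i)) X) f0, fun x => ?_⟩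
  rw [aeval_map_algebraMap]
  have h1 : (aeval x : MvPolynomial (Fin (b + 1)) F →ₐ[F] K).comp
      (aeval (Sum.elim (fun i => C (z0 i)) X)) = aeval (Sum.elim z x) := by
    apply MvPolynomial.algHom_ext
    rintro (i | i)
    · simp [hz0]
    · simp
  exact DFunLike.congr_fun h1 f0

/-- **Points over finitely generated fields.** -/
theorem FinMap.fin_points (C : FinMap Φ X r) (hΦ : ∀ f ∈ Φ, ∃ e, f.IsHomogeneous e)
    (hd : 2 * X.m + 1 + r ≤ ∑ a, (X.d a + 1)) (T : Finset K) :
    {p : ℙ K (Fin (M + 1) → K) | ∃ (z : Fin (M + 1) → K) (hz : z ≠ 0),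
      p = Projectivization.mk K z hz ∧ (∀ f ∈ Φ, aeval z f = 0) ∧
      ∀ i, z i ∈ IntermediateField.adjoin (algebraicClosure k K) (T : Set K)}.Finite := by
  classical
  -- finitely many equations
  obtain ⟨Gs, hGs, hspan⟩ : ∃ Gs : Finset (MvPolynomial (Fin (M + 1) ⊕ Fin (X.n + 1)) K),
      ↑Gs ⊆ peqs C ∧ Ideal.span (peqs C) = Ideal.span (Gs : Set _) := by
    have h1 : (Submodule.span (MvPolynomial (Fin (M + 1) ⊕ Fin (X.n + 1)) K) (peqs C)).FG :=
      (Ideal.fg_of_isNoetherianRing (Ideal.span (peqs C)) : (Ideal.span (peqs C)).FG)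
    exact (Submodule.fg_span_iff_fg_span_finset_subset _).1 h1
  have hP : ∀ {E : Type} [Field E] [Algebra K E] (u : Fin (M + 1) ⊕ Fin (X.n + 1) → E),
      (∀ f ∈ Gs, aeval u f = 0) → ∀ f ∈ peqs C, aeval u f = 0 := by
    intro E _ _ u hu f hf
    have h1 : f ∈ Ideal.span (Gs : Set (MvPolynomial (Fin (M + 1) ⊕ Fin (X.n + 1)) K)) := by
      rw [← hspan]
      exact Ideal.subset_span hf
    have h2 : Ideal.span (Gs : Set (MvPolynomial (Fin (M + 1) ⊕ Fin (X.n + 1)) K)) ≤
        RingHom.ker (aeval u : MvPolynomial (Fin (M + 1) ⊕ Fin (X.n + 1)) K →ₐ[K] E).toRingHom :=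
      Ideal.span_le.2 fun f hf => hu f hf
    exact h2 h1
  obtain ⟨T1, hT1⟩ : ∃ T1 : Finset K, T1 = T ∪ Gs.biUnion fun f => f.coeffs := ⟨_, rfl⟩
  have hcz : CharZero (IntermediateField.adjoin (algebraicClosure k K) (T1 : Set K)) :=
    (algebraMap (IntermediateField.adjoin (algebraicClosure k K) (T1 : Set K)) K).charZero
  have hX := Pool.Agent.Y735.R2.fin_proj_alg (r := r) hd X.V X.V_form X.V_dim X.F X.F_form X.I₀
    X.coeff_ne X.generic T1
  refine (hX.biUnion fun p _ => ?_ : (⋃ p ∈ {p : ℙ K (Fin (X.n + 1) → K) |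
    ∃ x : Fin (X.n + 1) → K, (∀ f ∈ X.V, aeval x f = 0) ∧ (∀ a, eval x (X.F a) = 0) ∧
      (∃ L : IntermediateField (IntermediateField.adjoin (algebraicClosure k K) (T1 : Set K)) K,
        FiniteDimensional (IntermediateField.adjoin (algebraicClosure k K) (T1 : Set K)) L ∧
        Module.finrank (IntermediateField.adjoin (algebraicClosure k K) (T1 : Set K)) L ≤ r ∧
        ∀ j, x j ∈ L) ∧ ∃ hx : x ≠ 0, p = Projectivization.mk K x hx},
    {q : ℙ K (Fin (M + 1) → K) | X.Point p.rep ∧ OnSet Φ q.rep ∧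
      Rel C.Γ q.rep p.rep}).Finite).subset ?_
  · by_cases hp : X.Point p.rep
    · exact (C.fib_finite hp).subset fun q hq => hq.2
    · refine Set.finite_empty.subset ?_
      rintro q ⟨h1, -⟩
      exact absurd h1 hp
  rintro q ⟨z, hz, rfl, hzΦ, hzT⟩
  obtain ⟨x, hx, hzx⟩ := C.total z ⟨hz, hzΦ⟩
  obtain ⟨b0, hb0'⟩ := Function.ne_iff.1 hx.ne
  have hb0 : x b0 ≠ 0 := hb0'
  obtain ⟨x1, hx1⟩ : ∃ x1 : Fin (X.n + 1) → K, x1 = fun j => (x b0)⁻¹ * x j := ⟨_, rfl⟩
  have hx1b : x1 b0 = 1 := by rw [hx1]; exact inv_mul_cancel₀ hb0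
  have hx1S : OnSet (eqs X) x1 := by
    rw [hx1]
    exact OnSet.scale (fun f hf => eqs_form hf) (point_iff.1 hx) (inv_ne_zero hb0)
  have hx1R : Rel C.Γ z x1 := by
    have h1 := hzx.scale C.bihom 1 (x b0)⁻¹
    simp only [one_mul] at h1
    rw [hx1]
    exact h1
  have hmono : ∀ t ∈ IntermediateField.adjoin (algebraicClosure k K) (T : Set K),
      t ∈ IntermediateField.adjoin (algebraicClosure k K) (T1 : Set K) := by
    intro t ht
    refine IntermediateField.adjoin.mono _ _ _ ?_ ht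
    rw [hT1]
    exact Finset.coe_subset.2 Finset.subset_union_left
  -- the degree of the point
  have hg : ∀ f : Gs, ∃ g : MvPolynomial (Fin (X.n + 1))
      (IntermediateField.adjoin (algebraicClosure k K) (T1 : Set K)),
      ∀ x : Fin (X.n + 1) → K, aeval x g = aeval (Sum.elim z x) f.1 := by
    intro f
    refine exists_fib (F := IntermediateField.adjoin (algebraicClosure k K) (T1 : Set K))
      (fun c hc => ⟨⟨c, IntermediateField.subset_adjoin _ _ ?_⟩, rfl⟩)
      fun i => ⟨⟨z i, hmono _ (hzT i)⟩, rfl⟩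
    rw [hT1]
    exact Finset.mem_coe.2 (Finset.mem_union_right _ (Finset.mem_biUnion.2 ⟨f.1, f.2, hc⟩))
  choose g hg using hg
  have hgz : ∀ x : Fin (X.n + 1) → K, (∀ f, aeval x (g f) = 0) →
      ∀ p ∈ peqs C, aeval (Sum.elim z x) p = 0 := fun x hx =>
    hP _ fun f hf => by rw [← hg ⟨f, hf⟩]; exact hx _
  obtain ⟨hfd, hrk⟩ := deg_few (F := IntermediateField.adjoin (algebraicClosure k K)
      (T1 : Set K)) (K := K) (r := r) (𝒬 := Set.range g) (b0 := b0) (fun p hp hpQ =>
    not_inj hp (C.few z ⟨hz, hzΦ⟩ p fun l => by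
      have h1 := mem_peqs.1 (hgz (p l) fun f => hpQ l _ ⟨f, rfl⟩)
      refine ⟨point_iff.2 ⟨fun h => ?_, h1.2⟩, h1.1⟩
      have h2 := hp l
      rw [h] at h2
      exact zero_ne_one h2)) hx1b (by
    rintro _ ⟨f, rfl⟩
    rw [hg]
    exact mem_peqs.2 ⟨hx1R, hx1S.2⟩ f.1 (hGs f.2))
  have hx1P : X.Point x1 := point_iff.2 hx1S
  refine Set.mem_iUnion₂.2 ⟨Projectivization.mk K x1 hx1P.ne, ⟨x1, fun f hf => ?_, fun a => ?_,
    ⟨_, hfd, hrk, fun j => IntermediateField.subset_adjoin _ _ ⟨j, rfl⟩⟩, hx1P.ne, rfl⟩, ?_⟩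
  · have h2 := hx1P.mem_V f hf
    rwa [aeval_map_algebraMap] at h2
  · have h2 := hx1P.mem_F a
    rwa [aeval_eq_eval] at h2
  · obtain ⟨c, hc⟩ := Projectivization.exists_smul_eq_mk_rep K x1 hx1P.ne
    obtain ⟨e, he⟩ := Projectivization.exists_smul_eq_mk_rep K z hz
    have hc' : (Projectivization.mk K x1 hx1P.ne).rep = fun j => (c : K) * x1 j := by
      rw [← hc]
      rfl
    have he' : (Projectivization.mk K z hz).rep = fun j => (e : K) * z j := by
      rw [← he]
      rfl
    refine ⟨?_, ?_, ?_⟩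
    · rw [hc']
      exact point_iff.2 (OnSet.scale (fun f hf => eqs_form hf) hx1S c.ne_zero)
    · rw [he']
      exact OnSet.scale hΦ ⟨hz, hzΦ⟩ e.ne_zero
    · rw [hc', he']
      exact hx1R.scale C.bihom _ _

end

end Pool.Agent.N95.GH
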