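import Pool.Agent.N95.GH.Pts
import Pool.Agent.N95.GP.Core

/-!
Finite multi-valued maps from projective sets to generic complete intersections.
-/

set_option autoImplicit false
set_option linter.unusedSectionVars false
set_option linter.overlappingInstances false

open MvPolynomial

namespace Pool.Agent.N95.GH

open Pool.Agent.N111.GI (GenericCI)
open Pool.Agent.N111.FT
open Pool.Agent.W602.GT (coords)

/-- The point with the homogeneous coordinates `z` lies on the projective set `{Φ = 0}`. -/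
def OnSet {K E : Type} [Field K] [Field E] [Algebra K E] {M : ℕ}
    (Φ : Set (MvPolynomial (Fin (M + 1)) K)) (z : Fin (M + 1) → E) : Prop :=
  z ≠ 0 ∧ ∀ f ∈ Φ, aeval z f = 0

/-- The polynomial is homogeneous in each of the two groups of variables. -/
def BiHom {K : Type} [Field K] {M n : ℕ} (T : MvPolynomial (Fin (M + 1) ⊕ Fin (n + 1)) K) : Prop :=
  ∃ a b : ℕ, ∀ α ∈ T.support, ∑ i, α (Sum.inl i) = a ∧ ∑ j, α (Sum.inr j) = b

/-- The closed subset of `ℙᴹ × ℙⁿ` given by the polynomials in `Γ` contains `(z, x)`. -/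
def Rel {K E : Type} [Field K] [Field E] [Algebra K E] {M n : ℕ}
    (Γ : Set (MvPolynomial (Fin (M + 1) ⊕ Fin (n + 1)) K)) (z : Fin (M + 1) → E)
    (x : Fin (n + 1) → E) : Prop :=
  ∀ T ∈ Γ, aeval (Sum.elim z x) T = 0

/-- A finite multi-valued map, with at most `r` values, from the projective set `{Φ = 0}` to the
generic complete intersection `X`: a closed subset `Γ` of `{Φ = 0} × X` such that

* for each point `z` of `{Φ = 0}` there are at least one and at most `r` points `x` of `X` with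
  `(z, x)` in `Γ`;
* for some `N`, for each point `x` of `X` there are at most `N` points `z` of `{Φ = 0}` with `(z, x)`
  in `Γ`. -/
structure FinMap {k K : Type} [Field k] [Field K] [Algebra k K] {M : ℕ}
    (Φ : Set (MvPolynomial (Fin (M + 1)) K)) (X : GenericCI k K) (r : ℕ) where
  /-- the equations of the closed subset -/
  Γ : Set (MvPolynomial (Fin (M + 1) ⊕ Fin (X.n + 1)) K)
  bihom : ∀ T ∈ Γ, BiHom T
  total : ∀ z : Fin (M + 1) → K, OnSet Φ z → ∃ x : Fin (X.n + 1) → K, X.Point x ∧ Rel Γ z x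
  few : ∀ z : Fin (M + 1) → K, OnSet Φ z → ∀ x : Fin (r + 1) → Fin (X.n + 1) → K,
    (∀ l, X.Point (x l) ∧ Rel Γ z (x l)) → ∃ i j, i ≠ j ∧ ∃ c : K, x i = c • x j
  fin : ∃ N : ℕ, ∀ x : Fin (X.n + 1) → K, X.Point x → ∀ z : Fin (N + 1) → Fin (M + 1) → K,
    (∀ l, OnSet Φ (z l) ∧ Rel Γ (z l) x) → ∃ i j, i ≠ j ∧ ∃ c : K, z i = c • z j

section scale

variable {K E : Type} [Field K] [Field E] [Algebra K E] {M n : ℕ}

theorem aeval_scale {T : MvPolynomial (Fin (M + 1) ⊕ Fin (n + 1)) K} (hT : BiHom T) :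
    ∃ a b : ℕ, ∀ (c d : E) (z : Fin (M + 1) → E) (x : Fin (n + 1) → E),
      aeval (Sum.elim (fun i => c * z i) (fun j => d * x j)) T =
        c ^ a * d ^ b * aeval (Sum.elim z x) T := by
  obtain ⟨a, b, h⟩ := hT
  refine ⟨a, b, fun c d z x => ?_⟩
  rw [aeval_def, aeval_def, eval₂_eq', eval₂_eq', Finset.mul_sum]
  refine Finset.sum_congr rfl fun α hα => ?_
  obtain ⟨h1, h2⟩ := h α hα
  rw [Fintype.prod_sum_type, Fintype.prod_sum_type]
  simp only [Sum.elim_inl, Sum.elim_inr, mul_pow, Finset.prod_mul_distrib]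
  rw [Finset.prod_pow_eq_pow_sum, Finset.prod_pow_eq_pow_sum, h1, h2]
  ring

theorem Rel.scale {Γ : Set (MvPolynomial (Fin (M + 1) ⊕ Fin (n + 1)) K)}
    (hΓ : ∀ T ∈ Γ, BiHom T) {z : Fin (M + 1) → E} {x : Fin (n + 1) → E} (h : Rel Γ z x) (c d : E) :
    Rel Γ (fun i => c * z i) fun j => d * x j := by
  intro T hT
  obtain ⟨a, b, hab⟩ := aeval_scale (E := E) (hΓ T hT)
  rw [hab, h T hT, mul_zero]

end scale

section algc

variable {K Ω : Type} [Field K] [Field Ω] [Algebra K Ω] [IsAlgClosed Ω]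

theorem isAlgClosed_aclo (S : Set Ω) : IsAlgClosed (aclo K S) := by
  have h1 := (algebraicClosure.isAlgClosure (IntermediateField.adjoin K S) Ω).isAlgClosed
  exact h1

end algc

section lift

variable {k K : Type} [Field k] [Field K] [Algebra k K] [IsAlgClosed K] [CharZero K] {M : ℕ}
  {Φ : Set (MvPolynomial (Fin (M + 1)) K)} {X : GenericCI k K} {r : ℕ}

/-- the equations of `X` -/
def eqs (X : GenericCI k K) : Set (MvPolynomial (Fin (X.n + 1)) K) :=
  (MvPolynomial.map (algebraMap (algebraicClosure k K) K) '' X.V) ∪ Set.range X.F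

theorem eqs_form {f : MvPolynomial (Fin (X.n + 1)) K} (hf : f ∈ eqs X) :
    ∃ e, f.IsHomogeneous e := by
  rcases hf with ⟨g, hg, rfl⟩ | ⟨a, rfl⟩
  · obtain ⟨e, he⟩ := X.V_form g hg
    exact ⟨e, he.map _⟩
  · exact ⟨_, X.F_form a⟩

theorem point_iff {E : Type} [Field E] [Algebra K E] {x : Fin (X.n + 1) → E} :
    X.Point x ↔ OnSet (eqs X) x := by
  constructor
  · intro h
    refine ⟨h.ne, ?_⟩
    rintro f (⟨g, hg, rfl⟩ | ⟨a, rfl⟩)
    · exact h.mem_V g hg
    · exact h.mem_F a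
  · intro h
    exact ⟨h.1, fun f hf => h.2 _ (Or.inl ⟨f, hf, rfl⟩), fun a => h.2 _ (Or.inr ⟨a, rfl⟩)⟩

theorem OnSet.scale {n : ℕ} {Ψ : Set (MvPolynomial (Fin (n + 1)) K)}
    (hΨ : ∀ f ∈ Ψ, ∃ e, f.IsHomogeneous e) {E : Type} [Field E] [Algebra K E]
    {x : Fin (n + 1) → E} (h : OnSet Ψ x) {c : E} (hc : c ≠ 0) : OnSet Ψ fun j => c * x j := by
  refine ⟨fun h0 => h.1 (funext fun j => ?_), fun f hf => ?_⟩
  · exact (mul_eq_zero.1 (congrFun h0 j)).resolve_left hc
  · obtain ⟨e, he⟩ := hΨ f hf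
    have h1 := Pool.Agent.W602.GT.val_smul he c x
    change aeval (fun j => c * x j) f = _ at h1
    rw [h1]
    have h2 : Pool.Agent.W602.GT.val x f = aeval x f := rfl
    rw [h2, h.2 f hf, mul_zero]

/-- all equations of the graph -/
def peqs (C : FinMap Φ X r) : Set (MvPolynomial (Fin (M + 1) ⊕ Fin (X.n + 1)) K) :=
  C.Γ ∪ rename Sum.inr '' eqs X

/-- all equations of the graph, with the groups of variables exchanged -/
def peqs' (C : FinMap Φ X r) : Set (MvPolynomial (Fin (X.n + 1) ⊕ Fin (M + 1)) K) :=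
  rename Sum.swap '' C.Γ ∪ rename Sum.inr '' Φ

theorem mem_peqs {C : FinMap Φ X r} {E : Type} [Field E] [Algebra K E] {z : Fin (M + 1) → E}
    {x : Fin (X.n + 1) → E} : (∀ p ∈ peqs C, aeval (Sum.elim z x) p = 0) ↔
      Rel C.Γ z x ∧ ∀ f ∈ eqs X, aeval x f = 0 := by
  have h1 : ∀ f : MvPolynomial (Fin (X.n + 1)) K,
      aeval (Sum.elim z x) (rename Sum.inr f) = aeval x f := by
    intro f
    rw [aeval_rename, Sum.elim_comp_inr]
  constructor
  · intro h
    exact ⟨fun T hT => h T (Or.inl hT), fun f hf => by rw [← h1]; exact h _ (Or.inr ⟨f, hf, rfl⟩)⟩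
  · rintro ⟨h2, h3⟩ p (hp | ⟨f, hf, rfl⟩)
    · exact h2 p hp
    · rw [h1]
      exact h3 f hf

theorem mem_peqs' {C : FinMap Φ X r} {E : Type} [Field E] [Algebra K E] {z : Fin (M + 1) → E}
    {x : Fin (X.n + 1) → E} : (∀ p ∈ peqs' C, aeval (Sum.elim x z) p = 0) ↔
      Rel C.Γ z x ∧ ∀ f ∈ Φ, aeval z f = 0 := by
  have h1 : ∀ f : MvPolynomial (Fin (M + 1)) K,
      aeval (Sum.elim x z) (rename Sum.inr f) = aeval z f := by
    intro f
    rw [aeval_rename, Sum.elim_comp_inr]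
  have h0 : ∀ T : MvPolynomial (Fin (M + 1) ⊕ Fin (X.n + 1)) K,
      aeval (Sum.elim x z) (rename Sum.swap T) = aeval (Sum.elim z x) T := by
    intro T
    rw [aeval_rename]
    congr 2
    funext j
    rcases j with j | j <;> rfl
  constructor
  · intro h
    exact ⟨fun T hT => by rw [← h0]; exact h _ (Or.inl ⟨T, hT, rfl⟩),
      fun f hf => by rw [← h1]; exact h _ (Or.inr ⟨f, hf, rfl⟩)⟩
  · rintro ⟨h2, h3⟩ p (⟨T, hT, rfl⟩ | ⟨f, hf, rfl⟩)
    · rw [h0]
      exact h2 T hT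
    · rw [h1]
      exact h3 f hf

/-- normalised proportional points are equal -/
theorem not_inj {n s : ℕ} {p : Fin s → Fin (n + 1) → K} {b0 : Fin (n + 1)}
    (hp : ∀ l, p l b0 = 1) (h : ∃ i j, i ≠ j ∧ ∃ c : K, p i = c • p j) :
    ¬ Function.Injective p := by
  obtain ⟨i, j, hij, c, hc⟩ := h
  intro hinj
  apply hij
  apply hinj
  have h1 := congrFun hc b0
  rw [Pi.smul_apply, hp, hp, smul_eq_mul, mul_one] at h1
  rw [hc, ← h1, one_smul]

end lift

end Pool.Agent.N95.GH
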