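import Mathlib

/-!
Homomorphisms to the base field, and points of correspondences over extensions.
-/

set_option autoImplicit false

namespace Pool.Agent.N95.GH

/-- homomorphisms from domains of finite type to the algebraically closed base field -/
theorem exists_hom {K A : Type} [Field K] [IsAlgClosed K] [CommRing A] [IsDomain A] [Algebra K A]
    [Algebra.FiniteType K A] {h : A} (hh : h ≠ 0) : ∃ φ : A →ₐ[K] K, φ h ≠ 0 := by
  classical
  let B := Localization.Away h
  have hle : Submonoid.powers h ≤ nonZeroDivisors A := by
    rintro _ ⟨n, rfl⟩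
    exact mem_nonZeroDivisors_of_ne_zero (pow_ne_zero n hh)
  have hinj : Function.Injective (algebraMap A B) := IsLocalization.injective B hle
  have hnt : Nontrivial B := hinj.nontrivial
  obtain ⟨m, hm⟩ := Ideal.exists_maximal B
  let F := B ⧸ m
  let _ : Field F := Ideal.Quotient.field m
  have hABp : Algebra.FinitePresentation A B := IsLocalization.Away.finitePresentation h
  have hAB : Algebra.FiniteType A B := inferInstance
  have hB : Algebra.FiniteType K B := Algebra.FiniteType.trans (S := A) inferInstance hAB
  have hF : Algebra.FiniteType K F :=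
    Algebra.FiniteType.of_surjective (Ideal.Quotient.mkₐ K m) Ideal.Quotient.mk_surjective
  have hfin : Module.Finite K F := finite_of_finite_type_of_isJacobsonRing K F
  have hint : Algebra.IsIntegral K F := inferInstance
  have hb := IsAlgClosed.algebraMap_bijective_of_isIntegral (k := K) (K := F)
  let e : K ≃ₐ[K] F := AlgEquiv.ofBijective (Algebra.ofId K F) hb
  refine ⟨(e.symm : F →ₐ[K] K).comp ((Ideal.Quotient.mkₐ K m).comp
    (IsScalarTower.toAlgHom K A B)), ?_⟩
  have hu : IsUnit (algebraMap A B h) := IsLocalization.Away.algebraMap_isUnit h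
  have h2 := hu.map ((e.symm : F →ₐ[K] K).comp (Ideal.Quotient.mkₐ K m))
  exact h2.ne_zero

end Pool.Agent.N95.GH
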