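import Pool.Agent.N95.GH.Cor

/-!
Lifting the generic points of the closed subvarieties to the generic complete intersection.
-/

set_option autoImplicit false
set_option linter.unusedSectionVars false
set_option linter.overlappingInstances false

open MvPolynomial

namespace Pool.Agent.N95.GH

open Pool.Agent.N111.GI (GenericCI)
open Pool.Agent.N111.FT
open Pool.Agent.W602.GT (coords)

variable {k K : Type} [Field k] [Field K] [Algebra k K] [IsAlgClosed K] [CharZero K] {M : ℕ}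
  {Φ : Set (MvPolynomial (Fin (M + 1)) K)} {X : GenericCI k K} {r : ℕ}

/-- **The lift.** -/
theorem FinMap.lift (hΦ : ∀ f ∈ Φ, ∃ e, f.IsHomogeneous e) (C : FinMap Φ X r) {E0 : Type}
    [Field E0] [Algebra K E0] {z : Fin (M + 1) → E0} (hz : OnSet Φ z) (hgen : coords K z = ⊤) :
    ∃ (L' : Type) (_ : Field L') (_ : Algebra K L') (_ : Algebra E0 L')
      (_ : IsScalarTower K E0 L') (_ : FiniteDimensional E0 L') (x : Fin (X.n + 1) → L'),
      Module.finrank E0 L' ≤ r ∧ X.Point x ∧ Algebra.IsAlgebraic (coords K x) L' := by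
  classical
  let Ω := AlgebraicClosure E0
  let ι : E0 →ₐ[K] Ω := IsScalarTower.toAlgHom K E0 Ω
  obtain ⟨zΩ, hzΩ⟩ : ∃ zΩ : Fin (M + 1) → Ω, zΩ = fun j => algebraMap E0 Ω (z j) := ⟨_, rfl⟩
  obtain ⟨j0, hj0'⟩ := Function.ne_iff.1 hz.1
  have hj0 : z j0 ≠ 0 := hj0'
  have hzj : zΩ j0 ≠ 0 := by
    rw [hzΩ]
    exact (map_ne_zero _).2 hj0
  have hzS : OnSet Φ zΩ := by
    refine ⟨fun h => hzj (congrFun h j0), fun f hf => ?_⟩
    rw [hzΩ]
    exact (MvPolynomial.aeval_algebraMap_apply Ω z f).trans (by rw [hz.2 f hf, map_zero])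
  obtain ⟨x, hx0, hx⟩ := lift_pt (K := K) (Ω := Ω) (Q := Φ) (P := peqs C) (fun z hz hzQ => by
    obtain ⟨x, hx, hxz⟩ := C.total z ⟨hz, hzQ⟩
    exact ⟨x, hx.ne, mem_peqs.2 ⟨hxz, (point_iff.1 hx).2⟩⟩) hzS.1 hzS.2
  obtain ⟨b0, hb0'⟩ := Function.ne_iff.1 hx0
  have hb0 : x b0 ≠ 0 := hb0'
  obtain ⟨x1, hx1⟩ : ∃ x1 : Fin (X.n + 1) → Ω, x1 = fun j => (x b0)⁻¹ * x j := ⟨_, rfl⟩
  have hx1b : x1 b0 = 1 := by rw [hx1]; exact inv_mul_cancel₀ hb0
  have hxR := mem_peqs.1 hx
  have hx1S : OnSet (eqs X) x1 := by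
    rw [hx1]
    exact OnSet.scale (fun f hf => eqs_form hf) ⟨hx0, hxR.2⟩ (inv_ne_zero hb0)
  have hx1R : Rel C.Γ zΩ x1 := by
    have h1 := hxR.1.scale C.bihom 1 (x b0)⁻¹
    simp only [one_mul] at h1
    rw [hx1]
    exact h1
  obtain ⟨hfd, hrk⟩ := deg_lift (K := K) (Ω := Ω) (Q := Φ) (P := peqs C) (r := r)
    (fun z hz hzQ b0 p hp hpP => not_inj hp (C.few z ⟨hz, hzQ⟩ p fun l => by
      have h1 := mem_peqs.1 (hpP l)
      refine ⟨point_iff.2 ⟨fun h => ?_, h1.2⟩, h1.1⟩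
      have h2 := hp l
      rw [h] at h2
      exact zero_ne_one h2)) (E0 := E0) hz.1 hz.2 hx1b
    (by rw [← hzΩ]; exact mem_peqs.2 ⟨hx1R, hx1S.2⟩)
  obtain ⟨E, hE⟩ : ∃ E, E = IntermediateField.adjoin E0 (Set.range x1) := ⟨_, rfl⟩
  rw [← hE] at hfd hrk
  have hmem : ∀ i, x1 i ∈ E := fun i => by
    rw [hE]
    exact IntermediateField.subset_adjoin E0 _ ⟨i, rfl⟩
  -- the algebraically closed field generated by the point
  obtain ⟨S, hS⟩ : ∃ S : Set Ω, S = {t | ∃ i j, x1 j ≠ 0 ∧ t = x1 i / x1 j} := ⟨_, rfl⟩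
  have hac : IsAlgClosed (aclo K S) := isAlgClosed_aclo S
  have hx1F : ∀ i, x1 i ∈ aclo K S := fun i => subset_aclo S (by
    rw [hS]
    exact ⟨i, b0, by rw [hx1b]; exact one_ne_zero, by rw [hx1b, div_one]⟩)
  obtain ⟨N, hN⟩ := C.fin
  have hzF : ∀ i, zΩ i / zΩ j0 ∈ aclo K S := by
    intro i
    obtain ⟨c, hc⟩ := fib_const (K := K) (Ω := Ω) (Q := eqs X) (P := peqs' C) (r := N)
      (fun y hy hyQ b0 p hp hpP => not_inj hp (hN y (point_iff.2 ⟨hy, hyQ⟩) p fun l => by
        have h1 := mem_peqs'.1 (hpP l)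
        refine ⟨⟨fun h => ?_, h1.2⟩, h1.1⟩
        have h2 := hp l
        rw [h] at h2
        exact zero_ne_one h2)) (F := aclo K S) (y := fun j => ⟨x1 j, hx1F j⟩)
      (fun h => by
        have h1 := congrArg Subtype.val (congrFun h b0)
        change x1 b0 = 0 at h1
        rw [hx1b] at h1
        exact one_ne_zero h1)
      (fun q hq => by
        apply (aclo K S).val.injective
        rw [map_zero]
        have h1 : (aclo K S).val.comp (aeval fun j => (⟨x1 j, hx1F j⟩ : aclo K S)) =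
            aeval x1 := by
          apply MvPolynomial.algHom_ext
          intro j
          rw [AlgHom.comp_apply, aeval_X, aeval_X]
          rfl
        have h2 := DFunLike.congr_fun h1 q
        rw [hx1S.2 q hq] at h2
        exact h2)
      (p := fun i => (zΩ j0)⁻¹ * zΩ i) (b0 := j0) (inv_mul_cancel₀ hzj)
      (mem_peqs'.2 ⟨by
        have h1 := hx1R.scale C.bihom (zΩ j0)⁻¹ 1
        simp only [one_mul] at h1
        exact h1, (OnSet.scale hΦ hzS (inv_ne_zero hzj)).2⟩) i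
    have h1 : (c : Ω) = (zΩ j0)⁻¹ * zΩ i := hc
    rw [div_eq_mul_inv, mul_comm, ← h1]
    exact c.2
  have hE0 : ∀ t : E0, algebraMap E0 Ω t ∈ aclo K S := by
    intro t
    have h1 : coords K z ≤ (aclo K S).comap ι := by
      unfold Pool.Agent.W602.GT.coords
      rw [IntermediateField.adjoin_le_iff]
      rintro _ ⟨i, j, hj, rfl⟩
      change algebraMap E0 Ω (z i / z j) ∈ aclo K S
      have hzj' : zΩ j ≠ 0 := by
        rw [hzΩ]
        exact (map_ne_zero _).2 hj
      have h2 : algebraMap E0 Ω (z i / z j) = (zΩ i / zΩ j0) / (zΩ j / zΩ j0) := by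
        rw [div_div_div_cancel_right₀ hzj, map_div₀, hzΩ]
      rw [h2]
      exact div_mem (hzF i) (hzF j)
    exact h1 (by rw [hgen]; exact IntermediateField.mem_top)
  have hEF : ∀ t ∈ E, t ∈ aclo K S := by
    have h1 : E ≤ (aclo K S).toSubfield.toIntermediateField hE0 := by
      rw [hE, IntermediateField.adjoin_le_iff]
      rintro _ ⟨i, rfl⟩
      exact hx1F i
    exact fun t ht => h1 ht
  have hst : IsScalarTower K E0 E := IsScalarTower.of_algebraMap_eq fun c => by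
    apply Subtype.ext
    change algebraMap K Ω c = algebraMap E0 Ω (algebraMap K E0 c)
    exact IsScalarTower.algebraMap_apply K E0 Ω c
  obtain ⟨x2, hx2⟩ : ∃ x2 : Fin (X.n + 1) → E, x2 = fun i => ⟨x1 i, hmem i⟩ := ⟨_, rfl⟩
  have hx2v : ∀ i, ((x2 i : E) : Ω) = x1 i := fun i => by rw [hx2]
  let vE : E →ₐ[K] Ω := E.val.restrictScalars K
  refine ⟨E, inferInstance, inferInstance, inferInstance, hst, hfd, x2, hrk, ?_, ?_⟩
  · refine point_iff.2 ⟨fun h => ?_, fun f hf => ?_⟩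
    · have h1 := hx2v b0
      rw [h, hx1b] at h1
      exact zero_ne_one h1
    · apply vE.injective
      rw [map_zero]
      have h1 : vE.comp (aeval x2) = aeval x1 := by
        apply MvPolynomial.algHom_ext
        intro j
        rw [AlgHom.comp_apply, aeval_X, aeval_X]
        exact hx2v j
      have h2 := DFunLike.congr_fun h1 f
      rw [hx1S.2 f hf] at h2
      exact h2
  · refine ⟨fun t => ?_⟩
    have h1 : vE t ∈ aclo K S := hEF t t.2
    have h2 : S = vE '' {t | ∃ i j, x2 j ≠ 0 ∧ t = x2 i / x2 j} := by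
      rw [hS]
      ext t
      constructor
      · rintro ⟨i, j, hj, rfl⟩
        refine ⟨x2 i / x2 j, ⟨i, j, fun h => hj ?_, rfl⟩, ?_⟩
        · rw [← hx2v, h]
          rfl
        · rw [map_div₀]
          change ((x2 i : E) : Ω) / ((x2 j : E) : Ω) = _
          rw [hx2v, hx2v]
      · rintro ⟨_, ⟨i, j, hj, rfl⟩, rfl⟩
        refine ⟨i, j, fun h => hj ?_, ?_⟩
        · apply Subtype.ext
          rw [hx2v, h]
          rfl
        · rw [map_div₀]
          change ((x2 i : E) : Ω) / ((x2 j : E) : Ω) = _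
          rw [hx2v, hx2v]
    rw [h2] at h1
    exact mem_aclo.1 ((map_mem_aclo_iff vE _ t).1 h1)

end Pool.Agent.N95.GH
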