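import Pool.Agent.N95.GH.Lft

/-!
Noetherian induction: linear degree bounds for all curves in a projective set, from the bounds off
proper closed subsets of all its closed subvarieties.
-/

set_option autoImplicit false
set_option linter.unusedSectionVars false
set_option linter.overlappingInstances false

open MvPolynomial FF Pool.Agent.W603.LV

namespace Pool.Agent.N95.GH

open Pool.Agent.N95.GP (CoverBound)
open Pool.Agent.W602.GT (coords val IsForm)
open Pool.Agent.W603.PV (pht)
open Pool.Agent.Y216 (OnVar)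

/-- Linear degree bounds for all coverings of degree at most `ρ` of curves, and all their morphisms
to the projective set `{Φ = 0}`. -/
def AllCoverBound (K : Type) [Field K] {M : ℕ} (ρ : ℕ) (Φ : Set (MvPolynomial (Fin (M + 1)) K)) :
    Prop :=
  ∃ A : ℕ, ∀ (B E : Type) [Field B] [Field E] [Algebra K B] [Algebra K E] [Algebra B E]
    [IsScalarTower K B E] [FiniteDimensional B E] [IsFF K B] [IsFF K E],
    Module.finrank B E ≤ ρ → ∀ f : Fin (M + 1) → E, OnSet Φ f →
      pht K f ≤ A * max (canDeg K B) 0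

/-- a covering of a curve with a morphism -/
structure CPt {K : Type} [Field K] {M : ℕ} (Φ : Set (MvPolynomial (Fin (M + 1)) K)) (ρ : ℕ) where
  B : Type
  E : Type
  [fB : Field B]
  [fE : Field E]
  [aB : Algebra K B]
  [aE : Algebra K E]
  [aBE : Algebra B E]
  [st : IsScalarTower K B E]
  [fd : FiniteDimensional B E]
  [ffB : IsFF K B]
  [ffE : IsFF K E]
  le : Module.finrank B E ≤ ρ
  f : Fin (M + 1) → E
  on : OnSet Φ f

attribute [instance] CPt.fB CPt.fE CPt.aB CPt.aE CPt.aBE CPt.st CPt.fd CPt.ffB CPt.ffE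

variable {K : Type} [Field K] {M : ℕ} {Φ : Set (MvPolynomial (Fin (M + 1)) K)} {ρ : ℕ}

/-- the evaluation on the line through the origin -/
noncomputable def cev {E : Type} [Field E] [Algebra K E] (f : Fin (M + 1) → E) :
    MvPolynomial (Fin (M + 1)) K →ₐ[K] Polynomial E :=
  aeval fun i => Polynomial.C (f i) * Polynomial.X

theorem cev_form {E : Type} [Field E] [Algebra K E] (f : Fin (M + 1) → E)
    {G : MvPolynomial (Fin (M + 1)) K} {d : ℕ} (hG : G.IsHomogeneous d) :
    cev f G = Polynomial.C (aeval f G) * Polynomial.X ^ d := by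
  unfold cev
  have h1 : (aeval fun i => Polynomial.C (f i) * Polynomial.X : MvPolynomial (Fin (M + 1)) K →ₐ[K]
      Polynomial E) G = ∑ α ∈ G.support, algebraMap K (Polynomial E) (G.coeff α) *
        ∏ i, (Polynomial.C (f i) * Polynomial.X) ^ α i := by
    rw [aeval_def, eval₂_eq']
  rw [h1, aeval_def, eval₂_eq', map_sum, Finset.sum_mul]
  refine Finset.sum_congr rfl fun α hα => ?_
  have h2 := hG (mem_support_iff.1 hα)
  rw [Finsupp.weight_apply, Finsupp.sum_fintype _ _ (fun i => by simp)] at h2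
  simp only [Pi.one_apply, smul_eq_mul, mul_one] at h2
  simp only [mul_pow, Finset.prod_mul_distrib, Finset.prod_pow_eq_pow_sum, h2, map_mul, map_prod,
    map_pow]
  rw [IsScalarTower.algebraMap_apply K E (Polynomial E), Polynomial.algebraMap_eq]
  ring

/-- the forms which vanish at the point -/
theorem cev_form_iff {E : Type} [Field E] [Algebra K E] (f : Fin (M + 1) → E)
    {G : MvPolynomial (Fin (M + 1)) K} (hG : IsForm G) : cev f G = 0 ↔ aeval f G = 0 := by
  obtain ⟨d, hd⟩ := hG
  rw [cev_form f hd]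
  constructor
  · intro h
    have h1 := (mul_eq_zero.1 h).resolve_right (pow_ne_zero d Polynomial.X_ne_zero)
    exact Polynomial.C_eq_zero.1 h1
  · intro h
    rw [h, map_zero, zero_mul]

/-- the components of the polynomials which vanish on the line vanish -/
theorem cev_comp {E : Type} [Field E] [Algebra K E] (f : Fin (M + 1) → E)
    {G : MvPolynomial (Fin (M + 1)) K} (hG : cev f G = 0) (d : ℕ) :
    cev f (homogeneousComponent d G) = 0 := by
  classical
  have h1 : cev f G = ∑ i ∈ Finset.range (G.totalDegree + 1),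
      Polynomial.C (aeval f (homogeneousComponent i G)) * Polynomial.X ^ i := by
    conv_lhs => rw [← sum_homogeneousComponent G]
    rw [map_sum]
    exact Finset.sum_congr rfl fun i _ => cev_form f (homogeneousComponent_isHomogeneous i G)
  rw [hG] at h1
  rw [cev_form f (homogeneousComponent_isHomogeneous d G)]
  by_cases hd : d < G.totalDegree + 1
  · have h2 := congrArg (fun q => Polynomial.coeff q d) h1
    simp only [Polynomial.coeff_zero, Polynomial.finsetSum_coeff, Polynomial.coeff_C_mul,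
      Polynomial.coeff_X_pow, mul_ite, mul_one, mul_zero] at h2
    rw [Finset.sum_ite_eq, if_pos (Finset.mem_range.2 hd)] at h2
    rw [← h2, map_zero, zero_mul]
  · rw [homogeneousComponent_eq_zero _ _ (by omega), map_zero, map_zero, zero_mul]

/-- the ideal of the point -/
noncomputable def CPt.I (P : CPt Φ ρ) : Ideal (MvPolynomial (Fin (M + 1)) K) :=
  RingHom.ker (cev P.f).toRingHom

theorem CPt.mem_I {P : CPt Φ ρ} {p : MvPolynomial (Fin (M + 1)) K} : p ∈ P.I ↔ cev P.f p = 0 :=
  Iff.rfl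

theorem CPt.I_prime (P : CPt Φ ρ) : P.I.IsPrime := RingHom.ker_isPrime _

/-- **Noetherian induction.** -/
theorem all_bound (hΦ : ∀ f ∈ Φ, ∃ e, f.IsHomogeneous e)
    (H : ∀ (E0 : Type) [Field E0] [Algebra K E0] (z : Fin (M + 1) → E0), OnSet Φ z →
      coords K z = ⊤ → CoverBound K ρ z) : AllCoverBound K ρ Φ := by
  classical
  by_contra hcon
  unfold AllCoverBound at hcon
  push Not at hcon
  let 𝓘 : Set (Ideal (MvPolynomial (Fin (M + 1)) K)) := {I | ∀ A : ℕ, ∃ P : CPt Φ ρ, I ≤ P.I ∧
    A * max (canDeg K P.B) 0 < pht K P.f}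
  have h0 : (⊥ : Ideal (MvPolynomial (Fin (M + 1)) K)) ∈ 𝓘 := by
    intro A
    obtain ⟨B, E, _, _, _, _, _, _, _, _, _, hle, f, hf, h⟩ := hcon A
    exact ⟨{ B := B, E := E, le := hle, f := f, on := hf }, bot_le, h⟩
  obtain ⟨I, hI, hmax⟩ := (wellFounded_gt (α := Ideal (MvPolynomial (Fin (M + 1)) K))).has_min 𝓘
    ⟨_, h0⟩
  -- elements which are in the ideals of bad points
  have key : ∀ S : Set (MvPolynomial (Fin (M + 1)) K), (∀ A : ℕ, ∃ P : CPt Φ ρ, I ≤ P.I ∧
      A * max (canDeg K P.B) 0 < pht K P.f ∧ S ⊆ P.I) → S ⊆ I := by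
    intro S hS
    by_contra hne
    refine hmax (I ⊔ Ideal.span S) (fun A => ?_) ?_
    · obtain ⟨P, h1, h2, h3⟩ := hS A
      exact ⟨P, sup_le h1 (Ideal.span_le.2 h3), h2⟩
    · refine lt_of_le_of_ne le_sup_left fun h => hne ?_
      rw [h]
      exact fun x hx => Ideal.mem_sup_right (Ideal.subset_span hx)
  have hΦI : Φ ⊆ I := key Φ fun A => by
    obtain ⟨P, h1, h2⟩ := hI A
    exact ⟨P, h1, h2, fun f hf => CPt.mem_I.2 ((cev_form_iff P.f (hΦ f hf)).2 (P.on.2 f hf))⟩
  have hcomp : ∀ p ∈ I, ∀ d, homogeneousComponent d p ∈ I := by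
    intro p hp d
    refine key {homogeneousComponent d p} (fun A => ?_) rfl
    obtain ⟨P, h1, h2⟩ := hI A
    exact ⟨P, h1, h2, by
      rintro _ rfl
      exact CPt.mem_I.2 (cev_comp P.f (CPt.mem_I.1 (h1 hp)) d)⟩
  have hpr : I.IsPrime := by
    refine ⟨fun htop => ?_, fun {a b} hab => ?_⟩
    · obtain ⟨P, h1, -⟩ := hI 0
      rw [htop, top_le_iff] at h1
      exact P.I_prime.ne_top h1
    · by_contra hcon2
      push Not at hcon2
      -- one of the two is in the ideals of infinitely many bad points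
      have h1 : ∃ A1 : ℕ, ∀ P : CPt Φ ρ, I ≤ P.I → A1 * max (canDeg K P.B) 0 < pht K P.f →
          a ∉ P.I := by
        by_contra h
        push Not at h
        apply hcon2.1
        exact key {a} (fun A => by
          obtain ⟨P, h1, h2, h3⟩ := h A
          exact ⟨P, h1, h2, by rintro _ rfl; exact h3⟩) rfl
      have h2 : ∃ A1 : ℕ, ∀ P : CPt Φ ρ, I ≤ P.I → A1 * max (canDeg K P.B) 0 < pht K P.f →
          b ∉ P.I := by
        by_contra h
        push Not at h
        apply hcon2.2
        exact key {b} (fun A => by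
          obtain ⟨P, h1, h2, h3⟩ := h A
          exact ⟨P, h1, h2, by rintro _ rfl; exact h3⟩) rfl
      obtain ⟨A1, h1⟩ := h1
      obtain ⟨A2, h2⟩ := h2
      obtain ⟨P, h3, h4⟩ := hI (max A1 A2)
      have hm : 0 ≤ max (canDeg K P.B) 0 := le_max_right _ _
      have h5 : (A1 : ℤ) * max (canDeg K P.B) 0 ≤ (max A1 A2 : ℕ) * max (canDeg K P.B) 0 :=
        mul_le_mul_of_nonneg_right (by exact_mod_cast le_max_left _ _) hm
      have h6 : (A2 : ℤ) * max (canDeg K P.B) 0 ≤ (max A1 A2 : ℕ) * max (canDeg K P.B) 0 :=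
        mul_le_mul_of_nonneg_right (by exact_mod_cast le_max_right _ _) hm
      rcases P.I_prime.mem_or_mem (h3 hab) with h | h
      · exact h1 P h3 (lt_of_le_of_lt h5 h4) h
      · exact h2 P h3 (lt_of_le_of_lt h6 h4) h
  -- the generic point
  let Kf := FractionRing (MvPolynomial (Fin (M + 1)) K ⧸ I)
  let π : MvPolynomial (Fin (M + 1)) K →ₐ[K] Kf :=
    (IsScalarTower.toAlgHom K (MvPolynomial (Fin (M + 1)) K ⧸ I) Kf).comp (Ideal.Quotient.mkₐ K I)
  have hπ : ∀ p, π p = 0 ↔ p ∈ I := by
    intro p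
    have h1 : π p = algebraMap (MvPolynomial (Fin (M + 1)) K ⧸ I) Kf (Ideal.Quotient.mk I p) := rfl
    rw [h1]
    constructor
    · intro h
      have h2 := (IsFractionRing.injective (MvPolynomial (Fin (M + 1)) K ⧸ I) Kf)
        (h.trans (map_zero _).symm)
      exact Ideal.Quotient.eq_zero_iff_mem.1 h2
    · intro h
      rw [Ideal.Quotient.eq_zero_iff_mem.2 h, map_zero]
  have hπX : π = aeval fun i => π (X i) := by
    apply MvPolynomial.algHom_ext
    intro i
    rw [aeval_X]
  obtain ⟨j, hj⟩ : ∃ j, π (X j) ≠ 0 := by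
    by_contra h
    push Not at h
    obtain ⟨P, h1, -⟩ := hI 0
    apply P.on.1
    funext i
    have h2 := CPt.mem_I.1 (h1 ((hπ _).1 (h i)))
    have h3 := (cev_form_iff P.f ⟨1, isHomogeneous_X K i⟩).1 h2
    rwa [aeval_X] at h3
  let z' : Fin (M + 1) → Kf := fun i => π (X i) / π (X j)
  let L : IntermediateField K Kf := IntermediateField.adjoin K (Set.range z')
  let z : Fin (M + 1) → L := fun i => ⟨z' i, IntermediateField.subset_adjoin _ _ ⟨i, rfl⟩⟩
  have hzj : z j = 1 := Subtype.ext (div_self hj)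
  have hzv : ∀ p : MvPolynomial (Fin (M + 1)) K, ((aeval z p : L) : Kf) = aeval z' p := by
    intro p
    have h1 : L.val.comp (aeval z) = aeval z' := by
      apply MvPolynomial.algHom_ext
      intro i
      rw [AlgHom.comp_apply, aeval_X, aeval_X]
      rfl
    exact DFunLike.congr_fun h1 p
  have hzform : ∀ G : MvPolynomial (Fin (M + 1)) K, IsForm G → (aeval z G = 0 ↔ G ∈ I) := by
    rintro G ⟨d, hd⟩
    have h1 : aeval z' G = (π (X j))⁻¹ ^ d * π G := by
      have h2 := Pool.Agent.W602.GT.val_smul hd (π (X j))⁻¹ (fun i => π (X i))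
      have h3 : (fun i => (π (X j))⁻¹ * π (X i)) = z' := by
        funext i
        change _ = π (X i) / π (X j)
        rw [div_eq_mul_inv, mul_comm]
      rw [h3] at h2
      have h4 : π G = aeval (fun i => π (X i)) G := DFunLike.congr_fun hπX G
      rw [h4]
      exact h2
    rw [← hπ]
    constructor
    · intro h
      have h2 := hzv G
      rw [h] at h2
      rw [h1] at h2
      exact (mul_eq_zero.1 h2.symm).resolve_left (pow_ne_zero _ (inv_ne_zero hj))
    · intro h
      apply Subtype.ext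
      rw [hzv, h1, h, mul_zero]
      rfl
  have hgen : coords K z = ⊤ := by
    rw [eq_top_iff]
    rintro ⟨t, ht⟩ -
    have h1 : L ≤ (coords K z).map L.val := by
      rw [IntermediateField.adjoin_le_iff]
      rintro _ ⟨i, rfl⟩
      refine ⟨z i, ?_, rfl⟩
      unfold Pool.Agent.W602.GT.coords
      refine IntermediateField.subset_adjoin _ _ ⟨i, j, ?_, ?_⟩
      · rw [hzj]
        exact one_ne_zero
      · rw [hzj, div_one]
    obtain ⟨t', ht', h2⟩ := h1 ht
    have h3 : t' = ⟨t, ht⟩ := Subtype.ext h2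
    rw [← h3]
    exact ht'
  obtain ⟨G, hG, hGz, A0, hA0⟩ := H L z ⟨fun h => by
      have h1 := congrFun h j
      rw [hzj] at h1
      exact one_ne_zero h1, fun f hf => (hzform f (hΦ f hf)).2 (hΦI hf)⟩ hgen
  have hGI : G ∉ I := fun h => hGz ((hzform G hG).2 h)
  apply hGI
  refine key {G} (fun A => ?_) rfl
  obtain ⟨P, h1, h2⟩ := hI (max A A0)
  have hm : 0 ≤ max (canDeg K P.B) 0 := le_max_right _ _
  have h5 : (A : ℤ) * max (canDeg K P.B) 0 ≤ (max A A0 : ℕ) * max (canDeg K P.B) 0 :=
    mul_le_mul_of_nonneg_right (by exact_mod_cast le_max_left _ _) hm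
  have h6 : (A0 : ℤ) * max (canDeg K P.B) 0 ≤ (max A A0 : ℕ) * max (canDeg K P.B) 0 :=
    mul_le_mul_of_nonneg_right (by exact_mod_cast le_max_right _ _) hm
  refine ⟨P, h1, lt_of_le_of_lt h5 h2, ?_⟩
  rintro _ rfl
  refine CPt.mem_I.2 ((cev_form_iff P.f hG).2 ?_)
  by_contra hne
  have h7 := hA0 P.B P.E P.le P.f ⟨Function.ne_iff.1 P.on.1, fun F hF hFz =>
    (cev_form_iff P.f hF).1 (CPt.mem_I.1 (h1 ((hzform F hF).1 hFz)))⟩ hne
  linarith

end Pool.Agent.N95.GH
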