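import Pool.Agent.N95.GH.Hom

/-!
Points of closed correspondences over extensions of the base field: existence, their degrees, and
their fields.
-/

set_option autoImplicit false
set_option linter.unusedSectionVars false

open MvPolynomial

namespace Pool.Agent.N95.GH

/-- a subalgebra which contains a finite set, with points at which a given element is not zero -/
theorem exists_sub (K : Type) {Ω : Type} [Field K] [IsAlgClosed K] [Field Ω] [Algebra K Ω]
    {S : Set Ω} (hS : S.Finite) : ∃ A : Subalgebra K Ω, S ⊆ A ∧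
      ∀ h : A, h ≠ 0 → ∃ φ : A →ₐ[K] K, φ h ≠ 0 := by
  classical
  refine ⟨Algebra.adjoin K S, Algebra.subset_adjoin, fun h hh => ?_⟩
  have h1 : (Algebra.adjoin K S).FG := by
    have := Subalgebra.fg_adjoin_finset (R := K) hS.toFinset
    rwa [hS.coe_toFinset] at this
  have h2 : Algebra.FiniteType K (Algebra.adjoin K S) := (Subalgebra.fg_iff_finiteType _).1 h1
  exact exists_hom hh

/-- values of polynomials at the images of points -/
theorem val_hom {K Ω σ : Type} [Field K] [Field Ω] [Algebra K Ω] {A : Subalgebra K Ω}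
    (φ : A →ₐ[K] K) {u : σ → Ω} (hu : ∀ i, u i ∈ A) {p : MvPolynomial σ K}
    (hp : aeval u p = 0) : aeval (fun i => φ ⟨u i, hu i⟩) p = 0 := by
  have h1 : aeval (fun i => (⟨u i, hu i⟩ : A)) p = 0 := by
    apply Subtype.ext
    change A.val _ = 0
    have h2 : A.val.comp (aeval fun i => (⟨u i, hu i⟩ : A)) = aeval u := by
      apply MvPolynomial.algHom_ext
      intro i
      rw [AlgHom.comp_apply, aeval_X, aeval_X]
      rfl
    rw [← AlgHom.comp_apply, h2, hp]
  have h3 : φ.comp (aeval fun i => (⟨u i, hu i⟩ : A)) = aeval fun i => φ ⟨u i, hu i⟩ := by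
    apply MvPolynomial.algHom_ext
    intro i
    rw [AlgHom.comp_apply, aeval_X, aeval_X]
  rw [← h3, AlgHom.comp_apply, h1, map_zero]

variable {K Ω : Type} [Field K] [IsAlgClosed K] [Field Ω] [Algebra K Ω] {a b : ℕ}

/-- **Points over extensions.** -/
theorem lift_pt [IsAlgClosed Ω] {Q : Set (MvPolynomial (Fin (a + 1)) K)}
    {P : Set (MvPolynomial (Fin (a + 1) ⊕ Fin (b + 1)) K)}
    (hP : ∀ z : Fin (a + 1) → K, z ≠ 0 → (∀ q ∈ Q, aeval z q = 0) →
      ∃ x : Fin (b + 1) → K, x ≠ 0 ∧ ∀ p ∈ P, aeval (Sum.elim z x) p = 0)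
    {z : Fin (a + 1) → Ω} (hz : z ≠ 0) (hzQ : ∀ q ∈ Q, aeval z q = 0) :
    ∃ x : Fin (b + 1) → Ω, x ≠ 0 ∧ ∀ p ∈ P, aeval (Sum.elim z x) p = 0 := by
  classical
  by_contra hcon
  push Not at hcon
  obtain ⟨f, hf⟩ : ∃ f : MvPolynomial (Fin (a + 1) ⊕ Fin (b + 1)) K →
      MvPolynomial (Fin (b + 1)) Ω,
      ∀ p, f p = aeval (Sum.elim (fun i => C (z i)) X) p := ⟨_, fun _ => rfl⟩
  have hfx : ∀ p (x : Fin (b + 1) → Ω), aeval x (f p) = aeval (Sum.elim z x) p := by
    intro p x
    rw [hf]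
    have h1 : ((aeval x : MvPolynomial (Fin (b + 1)) Ω →ₐ[Ω] Ω).restrictScalars K).comp
        (aeval (Sum.elim (fun i => C (z i)) X)) = aeval (Sum.elim z x) := by
      apply MvPolynomial.algHom_ext
      rintro (i | i)
      · simp
      · simp
    exact DFunLike.congr_fun h1 p
  have hrad : ∀ i, ∃ N, (X i : MvPolynomial (Fin (b + 1)) Ω) ^ N ∈ Ideal.span (f '' P) := by
    intro i
    have h1 : (X i : MvPolynomial (Fin (b + 1)) Ω) ∈ (Ideal.span (f '' P)).radical := by
      rw [← vanishingIdeal_zeroLocus_eq_radical (K := Ω), mem_vanishingIdeal_iff]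
      intro x hx
      rw [aeval_X]
      by_contra h0
      obtain ⟨p, hp, hp0⟩ := hcon x (fun h => h0 (congrFun h i))
      apply hp0
      rw [← hfx]
      exact hx (f p) (Ideal.subset_span ⟨p, hp, rfl⟩)
    exact h1
  choose N hN using hrad
  have hN' : ∀ i, ∃ t : Finset (MvPolynomial (Fin (a + 1) ⊕ Fin (b + 1)) K), ↑t ⊆ P ∧
      ∃ c : t → MvPolynomial (Fin (b + 1)) Ω, ∑ p, c p • f p.1 = X i ^ N i :=
    fun i => (Submodule.mem_span_image_iff_exists_fun _).1 (hN i)
  choose t ht c hc using hN'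
  obtain ⟨A, hA, hφ⟩ := exists_sub K (S := Set.range z ∪ ⋃ i, ⋃ p, ((c i p).coeffs : Set Ω))
    ((Set.finite_range z).union (Set.finite_iUnion fun i => Set.finite_iUnion fun p =>
      Finset.finite_toSet _))
  have hzA : ∀ j, z j ∈ A := fun j => hA (Or.inl ⟨j, rfl⟩)
  have hcA : ∀ i p, ∃ c' : MvPolynomial (Fin (b + 1)) A,
      MvPolynomial.map (algebraMap A Ω) c' = c i p := by
    intro i p
    have h1 : c i p ∈ Set.range ⇑(MvPolynomial.map (algebraMap A Ω)) := by
      rw [mem_range_map_iff_coeffs_subset]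
      intro y hy
      exact ⟨⟨y, hA (Or.inr (Set.mem_iUnion₂.2 ⟨i, p, hy⟩))⟩, rfl⟩
    exact h1
  choose c' hc' using hcA
  obtain ⟨j0, hj0'⟩ := Function.ne_iff.1 hz
  have hj0 : z j0 ≠ 0 := hj0'
  obtain ⟨φ, hφ0⟩ := hφ ⟨z j0, hzA j0⟩ (fun h => hj0 (congrArg Subtype.val h))
  let z0 : Fin (a + 1) → K := fun j => φ ⟨z j, hzA j⟩
  obtain ⟨x0, hx0, hxP⟩ := hP z0 (fun h => hφ0 (congrFun h j0)) fun q hq =>
    val_hom φ hzA (hzQ q hq)
  obtain ⟨i, hi⟩ := Function.ne_iff.1 hx0
  -- the identity over `A`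
  let g : MvPolynomial (Fin (a + 1) ⊕ Fin (b + 1)) K →ₐ[K] MvPolynomial (Fin (b + 1)) A :=
    aeval (Sum.elim (fun i => C ⟨z i, hzA i⟩) X)
  have hg : ∀ p, MvPolynomial.map (algebraMap A Ω) (g p) = f p := by
    intro p
    rw [hf]
    let ι : MvPolynomial (Fin (b + 1)) A →ₐ[K] MvPolynomial (Fin (b + 1)) Ω :=
      MvPolynomial.mapAlgHom A.val
    have h1 : ι.comp g = aeval (Sum.elim (fun i => C (z i)) X) := by
      apply MvPolynomial.algHom_ext
      rintro (i | i)
      · simp only [ι, g, AlgHom.comp_apply, aeval_X, Sum.elim_inl, mapAlgHom_apply]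
        exact map_C _ _
      · simp only [ι, g, AlgHom.comp_apply, aeval_X, Sum.elim_inr, mapAlgHom_apply]
        exact map_X _ _
    exact DFunLike.congr_fun h1 p
  have hid : ∑ p, c' i p * g p.1 = X i ^ N i := by
    apply MvPolynomial.map_injective (algebraMap A Ω) Subtype.val_injective
    rw [map_sum, map_pow, map_X, ← hc i]
    refine Finset.sum_congr rfl fun p _ => ?_
    rw [map_mul, hc', hg, smul_eq_mul]
  -- the value at the point
  let θ : MvPolynomial (Fin (b + 1)) A →ₐ[K] K :=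
    (aeval x0 : MvPolynomial (Fin (b + 1)) K →ₐ[K] K).comp (MvPolynomial.mapAlgHom φ)
  have hθg : ∀ p, θ (g p) = aeval (Sum.elim z0 x0) p := by
    intro p
    have h1 : θ.comp g = aeval (Sum.elim z0 x0) := by
      apply MvPolynomial.algHom_ext
      rintro (i | i)
      · simp only [θ, g, z0, AlgHom.comp_apply, aeval_X, Sum.elim_inl, mapAlgHom_apply]
        change aeval x0 (MvPolynomial.map (φ : A →+* K) (C _)) = _
        rw [map_C, aeval_C]
        rfl
      · simp only [θ, g, AlgHom.comp_apply, aeval_X, Sum.elim_inr, mapAlgHom_apply]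
        change aeval x0 (MvPolynomial.map (φ : A →+* K) (X _)) = _
        rw [map_X, aeval_X]
    exact DFunLike.congr_fun h1 p
  have h2 := congrArg θ hid
  rw [map_sum, map_pow] at h2
  have h3 : θ (X i) = x0 i := by
    change aeval x0 (MvPolynomial.map (φ : A →+* K) (X i)) = _
    rw [map_X, aeval_X]
  rw [h3, Finset.sum_eq_zero fun p _ => by
    rw [map_mul, hθg, hxP p.1 (ht i p.2), mul_zero]] at h2
  exact pow_ne_zero _ hi h2.symm

/-- **Many points in a fibre.** -/
theorem spec_pts {Q : Set (MvPolynomial (Fin (a + 1)) K)}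
    {P : Set (MvPolynomial (Fin (a + 1) ⊕ Fin (b + 1)) K)} {s : ℕ} {y : Fin (a + 1) → Ω}
    (hy : y ≠ 0) (hyQ : ∀ q ∈ Q, aeval y q = 0) {p : Fin s → Fin (b + 1) → Ω} {b0 : Fin (b + 1)}
    (h1 : ∀ l, p l b0 = 1) (hinj : Function.Injective p)
    (hP : ∀ l, ∀ f ∈ P, aeval (Sum.elim y (p l)) f = 0) :
    ∃ (y0 : Fin (a + 1) → K) (p0 : Fin s → Fin (b + 1) → K), y0 ≠ 0 ∧
      (∀ q ∈ Q, aeval y0 q = 0) ∧ (∀ l, p0 l b0 = 1) ∧ Function.Injective p0 ∧
      ∀ l, ∀ f ∈ P, aeval (Sum.elim y0 (p0 l)) f = 0 := by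
  classical
  have hne : ∀ e : {e : Fin s × Fin s // e.1 ≠ e.2}, ∃ i, p e.1.1 i ≠ p e.1.2 i := by
    rintro ⟨⟨l, l'⟩, hll⟩
    exact Function.ne_iff.1 fun h => hll (hinj h)
  choose i hi using hne
  obtain ⟨j0, hj0'⟩ := Function.ne_iff.1 hy
  have hj0 : y j0 ≠ 0 := hj0'
  obtain ⟨A, hA, hφ⟩ := exists_sub K (S := Set.range y ∪ ⋃ l, Set.range (p l))
    ((Set.finite_range y).union (Set.finite_iUnion fun l => Set.finite_range _))
  have hyA : ∀ j, y j ∈ A := fun j => hA (Or.inl ⟨j, rfl⟩)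
  have hpA : ∀ l j, p l j ∈ A := fun l j => hA (Or.inr (Set.mem_iUnion.2 ⟨l, j, rfl⟩))
  let h : A := ⟨y j0, hyA j0⟩ * ∏ e : {e : Fin s × Fin s // e.1 ≠ e.2},
    ((⟨p e.1.1 (i e), hpA _ _⟩ : A) - ⟨p e.1.2 (i e), hpA _ _⟩)
  have hh : h ≠ 0 := by
    refine mul_ne_zero (fun h0 => hj0 (congrArg Subtype.val h0)) ?_
    refine Finset.prod_ne_zero_iff.2 fun e _ => sub_ne_zero.2 fun h0 => hi e ?_
    exact congrArg Subtype.val h0
  obtain ⟨φ, hφh⟩ := hφ h hh
  rw [map_mul, map_prod] at hφh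
  have hφ1 := left_ne_zero_of_mul hφh
  have hφ2 := Finset.prod_ne_zero_iff.1 (right_ne_zero_of_mul hφh)
  refine ⟨fun j => φ ⟨y j, hyA j⟩, fun l j => φ ⟨p l j, hpA l j⟩, fun h0 => hφ1 (congrFun h0 j0),
    fun q hq => val_hom φ hyA (hyQ q hq), fun l => ?_, fun l l' hll => ?_, fun l f hf => ?_⟩
  · have h2 : (⟨p l b0, hpA l b0⟩ : A) = 1 := Subtype.ext (h1 l)
    change φ ⟨p l b0, hpA l b0⟩ = 1
    rw [h2, map_one]
  · by_contra hne
    have h3 := hφ2 ⟨(l, l'), hne⟩ (Finset.mem_univ _)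
    rw [map_sub, sub_ne_zero] at h3
    exact h3 (congrFun hll _)
  · have h2 : ∀ j, Sum.elim y (p l) j ∈ A := by
      rintro (j | j)
      · exact hyA j
      · exact hpA l j
    have h3 := val_hom φ h2 (hP l f hf)
    have h4 : (fun j => φ ⟨Sum.elim y (p l) j, h2 j⟩) =
        Sum.elim (fun j => φ ⟨y j, hyA j⟩) fun j => φ ⟨p l j, hpA l j⟩ := by
      funext j
      rcases j with j | j <;> rfl
    rwa [h4] at h3

/-- **The degree of the lift.** -/
theorem deg_lift [CharZero K] {Q : Set (MvPolynomial (Fin (a + 1)) K)}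
    {P : Set (MvPolynomial (Fin (a + 1) ⊕ Fin (b + 1)) K)} {r : ℕ}
    (hfew : ∀ z : Fin (a + 1) → K, z ≠ 0 → (∀ q ∈ Q, aeval z q = 0) →
      ∀ (b0 : Fin (b + 1)) (p : Fin (r + 1) → Fin (b + 1) → K), (∀ l, p l b0 = 1) →
        (∀ l, ∀ f ∈ P, aeval (Sum.elim z (p l)) f = 0) → ¬ Function.Injective p)
    {E0 : Type} [Field E0] [Algebra K E0] [Algebra E0 Ω] [IsScalarTower K E0 Ω] [IsAlgClosed Ω]
    [Algebra.IsAlgebraic E0 Ω] {z : Fin (a + 1) → E0} (hz : z ≠ 0)
    (hzQ : ∀ q ∈ Q, aeval z q = 0) {x : Fin (b + 1) → Ω} {b0 : Fin (b + 1)} (hx : x b0 = 1)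
    (hzx : ∀ f ∈ P, aeval (Sum.elim (fun j => algebraMap E0 Ω (z j)) x) f = 0) :
    FiniteDimensional E0 (IntermediateField.adjoin E0 (Set.range x)) ∧
      Module.finrank E0 (IntermediateField.adjoin E0 (Set.range x)) ≤ r := by
  classical
  have hch : CharZero E0 := charZero_of_injective_algebraMap (algebraMap K E0).injective
  obtain ⟨E, hE⟩ : ∃ E, E = IntermediateField.adjoin E0 (Set.range x) := ⟨_, rfl⟩
  rw [← hE]
  have hfin : FiniteDimensional E0 E := by
    rw [hE]
    exact IntermediateField.finiteDimensional_adjoin fun x _ =>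
      (Algebra.IsAlgebraic.isAlgebraic (R := E0) x).isIntegral
  refine ⟨hfin, ?_⟩
  by_contra hcon
  push Not at hcon
  have hmem : ∀ i, x i ∈ E := fun i => by
    rw [hE]
    exact IntermediateField.subset_adjoin E0 _ ⟨i, rfl⟩
  let u : Fin (b + 1) → E := fun i => ⟨x i, hmem i⟩
  have hcard : Fintype.card (Fin (r + 1)) ≤ Fintype.card (E →ₐ[E0] Ω) := by
    rw [AlgHom.card, Fintype.card_fin]
    exact hcon
  obtain ⟨σ⟩ := Function.Embedding.nonempty_of_card_le hcard
  have hinj : Function.Injective fun (l : Fin (r + 1)) i => σ l (u i) := by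
    intro l l' hll
    apply σ.injective
    refine IntermediateField.algHom_ext_of_eq_adjoin E0 hE ?_
    rintro _ ⟨i, rfl⟩
    exact congrFun hll i
  obtain ⟨z0, p0, h1, h2, h3, h4, h5⟩ := spec_pts (K := K) (Ω := Ω) (Q := Q) (P := P)
    (y := fun j => algebraMap E0 Ω (z j)) (fun h => hz (funext fun j =>
      (map_eq_zero _).1 (congrFun h j))) (fun q hq =>
        (MvPolynomial.aeval_algebraMap_apply Ω z q).trans (by rw [hzQ q hq, map_zero]))
    (p := fun l i => σ l (u i)) (b0 := b0) (fun l => by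
      have : u b0 = 1 := Subtype.ext hx
      rw [this, map_one]) hinj (fun l f hf => by
      have hv : aeval (Sum.elim (fun j => algebraMap E0 E (z j)) u) f = 0 := by
        let vE : E →ₐ[K] Ω := E.val.restrictScalars K
        apply vE.injective
        have h8 : vE.comp (aeval (Sum.elim (fun j => algebraMap E0 E (z j)) u)) =
            aeval (Sum.elim (fun j => algebraMap E0 Ω (z j)) x) := by
          apply MvPolynomial.algHom_ext
          rintro (j | j)
          · rw [AlgHom.comp_apply, aeval_X, aeval_X]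
            rfl
          · rw [AlgHom.comp_apply, aeval_X, aeval_X]
            rfl
        have h9 := DFunLike.congr_fun h8 f
        rw [hzx f hf] at h9
        rw [map_zero]
        exact h9
      have h6 := congrArg ((σ l).restrictScalars K) hv
      rw [map_zero] at h6
      have h7 : ((σ l).restrictScalars K).comp
          (aeval (Sum.elim (fun j => algebraMap E0 E (z j)) u)) =
          aeval (Sum.elim (fun j => algebraMap E0 Ω (z j)) fun i => σ l (u i)) := by
        apply MvPolynomial.algHom_ext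
        rintro (j | j)
        · simp
        · simp
      rw [← h7]
      exact h6)
  exact hfew z0 h1 h2 b0 p0 h3 h5 h4

/-- **Fibres with few points**: the points of the fibres over points over algebraically closed
extensions are defined over the same extension. -/
theorem fib_const {Q : Set (MvPolynomial (Fin (a + 1)) K)}
    {P : Set (MvPolynomial (Fin (a + 1) ⊕ Fin (b + 1)) K)} {r : ℕ}
    (hfew : ∀ y : Fin (a + 1) → K, y ≠ 0 → (∀ q ∈ Q, aeval y q = 0) →
      ∀ (b0 : Fin (b + 1)) (p : Fin (r + 1) → Fin (b + 1) → K), (∀ l, p l b0 = 1) →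
        (∀ l, ∀ f ∈ P, aeval (Sum.elim y (p l)) f = 0) → ¬ Function.Injective p)
    {F : Type} [Field F] [IsAlgClosed F] [Algebra K F] [Algebra F Ω] [IsScalarTower K F Ω]
    {y : Fin (a + 1) → F} (hy : y ≠ 0) (hyQ : ∀ q ∈ Q, aeval y q = 0) {p : Fin (b + 1) → Ω}
    {b0 : Fin (b + 1)} (hp : p b0 = 1)
    (hP : ∀ f ∈ P, aeval (Sum.elim (fun j => algebraMap F Ω (y j)) p) f = 0) (i : Fin (b + 1)) :
    p i ∈ Set.range (algebraMap F Ω) := by
  classical
  by_contra hcon
  -- the values of the coordinate at the points over `F`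
  obtain ⟨R, hR⟩ : ∃ R : Set F, R = {c | ∃ p' : Fin (b + 1) → F, p' b0 = 1 ∧
    (∀ f ∈ P, aeval (Sum.elim y p') f = 0) ∧ p' i = c} := ⟨_, rfl⟩
  have hRinf : R.Infinite := by
    intro hfin
    obtain ⟨A, hA, hφ⟩ := exists_sub F (S := Set.range p) (Set.finite_range p)
    have hpA : ∀ j, p j ∈ A := fun j => hA ⟨j, rfl⟩
    let h : A := ∏ c ∈ hfin.toFinset, ((⟨p i, hpA i⟩ : A) - algebraMap F A c)
    have hh : h ≠ 0 := by
      refine Finset.prod_ne_zero_iff.2 fun c _ => sub_ne_zero.2 fun h0 => hcon ⟨c, ?_⟩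
      exact (congrArg Subtype.val h0).symm
    obtain ⟨φ, hφh⟩ := hφ h hh
    rw [map_prod] at hφh
    have hφ2 := Finset.prod_ne_zero_iff.1 hφh
    have hmem : φ ⟨p i, hpA i⟩ ∈ R := by
      rw [hR]
      refine ⟨fun j => φ ⟨p j, hpA j⟩, ?_, fun f hf => ?_, rfl⟩
      · have h2 : (⟨p b0, hpA b0⟩ : A) = 1 := Subtype.ext hp
        change φ ⟨p b0, hpA b0⟩ = 1
        rw [h2, map_one]
      · let g : MvPolynomial (Fin (b + 1)) F := aeval (Sum.elim (fun j => C (y j)) X) f
        have hg : ∀ (E : Type) [Field E] [Algebra K E] [Algebra F E] [IsScalarTower K F E]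
            (x : Fin (b + 1) → E), aeval x g =
              aeval (Sum.elim (fun j => algebraMap F E (y j)) x) f := by
          intro E _ _ _ _ x
          have h1 : ((aeval x : MvPolynomial (Fin (b + 1)) F →ₐ[F] E).restrictScalars K).comp
              (aeval (Sum.elim (fun j => C (y j)) X)) =
              aeval (Sum.elim (fun j => algebraMap F E (y j)) x) := by
            apply MvPolynomial.algHom_ext
            rintro (j | j)
            · simp
            · simp
          exact DFunLike.congr_fun h1 f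
        have h3 : aeval p g = 0 := by
          rw [hg]
          exact hP f hf
        have h4 := val_hom φ hpA h3
        rw [hg] at h4
        exact h4
    have h5 := hφ2 _ (hfin.mem_toFinset.2 hmem)
    apply h5
    rw [map_sub, sub_eq_zero]
    exact (φ.commutes _).symm
  have hmemR : ∀ x ∈ R, ∃ p' : Fin (b + 1) → F, p' b0 = 1 ∧
      (∀ f ∈ P, aeval (Sum.elim y p') f = 0) ∧ p' i = x := fun x hx => by
    rw [hR] at hx
    exact hx
  obtain ⟨c, hcR⟩ := hRinf.natEmbedding
  choose p' h1 h2 h3 using fun l : ℕ => hmemR (c l) (c l).2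
  obtain ⟨y0, p0, h4, h5, h6, h7, h8⟩ := spec_pts (K := K) (Ω := F) (Q := Q) (P := P) hy hyQ
    (p := fun l : Fin (r + 1) => p' l) (b0 := b0) (fun l => h1 l) (fun l l' hll => by
      have h9 : p' l = p' l' := hll
      have h10 : (c l : F) = c l' := by rw [← h3, ← h3, h9]
      exact Fin.ext (hcR (Subtype.ext h10))) (fun l f hf => h2 l f hf)
  exact hfew y0 h4 h5 b0 p0 h6 h8 h7

end Pool.Agent.N95.GH
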