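import Pool.Agent.N95.GH.Noe

/-!
Finite images of finite covers of closed subsets of generic complete intersections.
-/

set_option autoImplicit false
set_option linter.unusedSectionVars false
set_option linter.overlappingInstances false

open MvPolynomial FF Pool.Agent.W603.LV

namespace Pool.Agent.N95.GH

open Pool.Agent.N111.GI (GenericCI)
open Pool.Agent.N95.GP (CoverBound)
open Pool.Agent.W602.GT (coords val IsForm GeneralType)
open Pool.Agent.W603.PV (pht)

/-- All closed subvarieties of positive dimension of the projective set `{Φ = 0}` are of general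
type: `E` is the function field of the subvariety, and `z` is its generic point. -/
def AllGeneral {K : Type} [Field K] {M : ℕ} (Φ : Set (MvPolynomial (Fin (M + 1)) K)) : Prop :=
  ∀ (E : Type) [Field E] [Algebra K E] (z : Fin (M + 1) → E) (w : ℕ), OnSet Φ z →
    coords K z = ⊤ → Algebra.trdeg K E = w → 1 ≤ w → GeneralType K E w

variable {k K : Type} [Field k] [Field K] [Algebra k K] [IsAlgClosed K] [CharZero K] {M : ℕ}
  {Φ : Set (MvPolynomial (Fin (M + 1)) K)} {X : GenericCI k K} {r ρ : ℕ}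

theorem FinMap.general (hΦ : ∀ f ∈ Φ, ∃ e, f.IsHomogeneous e) (C : FinMap Φ X r)
    (hd : 2 * X.m + r ≤ ∑ a, (X.d a + 1)) (hd2 : 2 * X.m + 2 ≤ ∑ a, (X.d a + 1)) :
    AllGeneral Φ := by
  classical
  intro E _ _ z w hz hgen hw hw1
  have hess : Algebra.EssFiniteType K E := Pool.Agent.N111.GI.ess_of_gen hgen
  have hac : IsAlgClosed (algebraicClosure k K) := (algebraicClosure.isAlgClosure k K).isAlgClosed
  obtain ⟨L', _, _, _, _, _, x, hr, hx, halg⟩ := C.lift hΦ hz hgen
  exact Pool.Agent.N111.GI.img_line X.V X.V_form X.V_dim hw1 hr (by omega) hd2 X.F X.F_form X.I₀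
    X.coeff_ne X.generic.algebraicClosure hw hx.ne halg hx.mem_V hx.mem_F

theorem FinMap.cover (hΦ : ∀ f ∈ Φ, ∃ e, f.IsHomogeneous e) (C : FinMap Φ X r)
    (hd : 2 * X.m + ρ * r ≤ ∑ a, (X.d a + 1)) (hd2 : 2 * X.m + 2 ≤ ∑ a, (X.d a + 1)) :
    AllCoverBound K ρ Φ := by
  refine all_bound hΦ fun E0 _ _ z hz hgen => ?_
  obtain ⟨L', _, _, _, _, _, x, hr, hx, halg⟩ := C.lift hΦ hz hgen
  exact Pool.Agent.N95.GP.joint_bound (k := k) (r := r) (AlgebraicClosure E0) hz.1 hgen
    (Pool.Agent.N95.GP.joint_val ⟨X, hd, hd2, L', hr, x, hx⟩ halg (AlgebraicClosure E0))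

end Pool.Agent.N95.GH
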